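import Pool.Agent.Helper3.GU.Fin
import Pool.Graph.R_pool_sql_team_seeded_1acbe0a2.Y101.Th.TBMain
import Pool.Graph.R_pool_sql_team_seeded_1acbe0a2.Y101.Th.CycMain

/-!
# Jannsen's question on cycle classes over finite fields and graph hypersurfaces

Let `k` be the field with `p` elements. For a simple graph `G` with the vertices `0, …, n` let `K_G` be the
Kirchhoff polynomial: the determinant of the Laplacian matrix (in the variables of the edges) without the
row and the column of the vertex `0`, and `Ψ_G` the first Symanzik polynomial, the determinant of the
expanded Laplacian matrix. `G` runs through the graphs with at most three neighbours of each vertex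
(`Subcubic`).

`T` is the motivic and `ℓ`-adic Borel-Moore homology of the schemes over `k` with the cycle class maps (and
regulators), with the known properties `IsHomology`, `TBKnown`, `CycKnown` of the starting library.
`CycIso T X` says that the maps `cl_i` of the question are isomorphisms onto the invariants of the
Frobenius for `X` and all `i`; `TB T X` is the same statement for all higher Chow groups, together with
the semisimplicity of the eigenvalue one of the Frobenius in all degrees. The hypothesis `geisser` is the
theorem that the maps of higher Chow groups of smooth projective schemes are isomorphisms as well if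
the maps `cl_i` are isomorphisms and the eigenvalue one is semisimple on the groups
`H_{2 i}(X, ℚ_ℓ(i))` for all varieties `X` (these imply the conjectures of Tate and Beilinson for smooth
projective varieties, and with them Parshin's conjecture).

**Theorem.** The cycle class maps `cl_i` are isomorphisms for all varieties `X` over `k` and all `i` if and
only if `TB T X` is true for each one of the following classes of schemes `X`: all separated schemes of
finite type; the complements of `K_G = 0` in the affine spaces; the hypersurfaces `K_G = 0`; the
complements of `K_G = 0` in the tori; the complements of `Ψ_G = 0` in the tori.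
-/

set_option autoImplicit false

open AlgebraicGeometry Pool.Agent.Y116.UV Pool.Agent.Q193.LT Pool.Agent.Y101.Th Pool.Agent.Helper3.GU

namespace Pool.Agent.Results.MP_3af9db_ag.GraphHypersurfaces

/-- **Jannsen's question on cycle classes over finite fields and graph hypersurfaces.** -/
theorem result {k Ω : Type} [Field k] [Finite k] (hk : (Nat.card k).Prime) [Field Ω] [CharZero Ω]
    {T : Homology k Ω} (hT : IsHomology T) (hK : TBKnown T) (hC : CycKnown T)
    (geisser : (∀ X : Sch k, FT True X → CycIso T X ∧ Semisimple T X) →
      ∀ X : Sch k, SmProj X → TB T X) :
    List.TFAE [∀ X : Sch k, FT True X → CycIso T X,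
      ∀ X : Sch k, FT True X → TB T X,
      ∀ (n : ℕ) (G : SimpleGraph (Fin (n + 1))), Subcubic G → TB T (graphS k G),
      ∀ (n : ℕ) (G : SimpleGraph (Fin (n + 1))), Subcubic G → TB T (graphH k G),
      ∀ (n : ℕ) (G : SimpleGraph (Fin (n + 1))), Subcubic G → TB T (graphT k G),
      ∀ (n : ℕ) (G : SimpleGraph (Fin (n + 1))), Subcubic G → TB T (feynmanT k G)] :=
  cons_all (cubic_tfae (mot_of_bnd (bnd_tb hT)) (presents_frac (frac_of_card hk)))
    ⟨fun h X hX => (gen_all (bnd_tb hT).toUni).mpr ((tb_smproj hT hK).mp (geisser fun X hX =>
      ⟨h X hX, semisimple_of_all hT hC h X hX⟩)) X hX,
      fun h X hX => ((jj_iff hT X).mp (jj_of_tb hT (h X hX))).1⟩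

end Pool.Agent.Results.MP_3af9db_ag.GraphHypersurfaces
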