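import Pool.Agent.Helper59.IP.Main
import Pool.Graph.R_pool_sql_team_seeded_1acbe0a2.Y101.Th.TBMain
import Pool.Graph.R_pool_sql_team_seeded_1acbe0a2.Y101.Th.CycMain

/-!
# Jannsen's question on cycle classes over finite fields and independence polynomials of graphs

Let `k` be the field with `p` elements. For a graph `G` with the vertices `V` let `I_G = ∑_s ∏_{v ∈ s} x_v`,
the sum over the independent sets `s` (sets of pairwise non-adjacent vertices) of `G`: the multivariate
independence polynomial. It is the partition function of the lattice gas on `G` with hard core interaction
and activities `x_v`. `G` runs through the graphs whose vertices are covered by three cliques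
(`ThreeCliques`), so that an independent set has at most three elements and `I_G` is a cubic polynomial: the
sum of `∏_{v ∈ s} x_v` over all cliques `s` of the 3-colourable complementary graph.

`T` is the motivic and `ℓ`-adic Borel-Moore homology of the schemes over `k` with the cycle class maps (and
regulators), with the known properties `IsHomology`, `TBKnown`, `CycKnown` of the starting library.
`CycIso T X` says that the maps `cl_i` of the question are isomorphisms onto the invariants of the
Frobenius for `X` and all `i`; `TB T X` is the same statement for all higher Chow groups, together with
the semisimplicity of the eigenvalue one of the Frobenius in all degrees. The hypothesis `geisser` is the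
theorem that the maps of higher Chow groups of smooth projective schemes are isomorphisms as well if
the maps `cl_i` are isomorphisms and the eigenvalue one is semisimple on the groups
`H_{2 i}(X, ℚ_ℓ(i))` for all varieties `X` (these imply the conjectures of Tate and Beilinson for smooth
projective varieties, and with them Parshin's conjecture).

**Theorem.** The cycle class maps `cl_i` are isomorphisms for all varieties `X` over `k` and all `i` if and
only if `TB T X` is true for each one of the following classes of schemes `X`: all separated schemes of
finite type; the complements of `I_G = 0` in the affine spaces, for the graphs `G` covered by three cliques;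
the cubic hypersurfaces `I_G = 0`; the complements of `I_G = 0` in the tori; the intersections of `I_G = 0`
with the tori.

The universality theorem for these polynomials is `Pool.Agent.Helper59.IP.ind_tfae`: a property of schemes
of finite type that is closed under closed-open decompositions and the usual affine bundles is true for all
schemes if it is true for the complements of the hypersurfaces `I_G = 0`. The idea: let `Γ` be covered by
two cliques and `A_1, …, A_m` sets of vertices. Add to `Γ` a vertex `w` adjacent to `Γ`, a clique of
vertices `v_r` adjacent to `w` and to the vertices of `Γ` outside of `A_r`, and a vertex `u` adjacent to the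
`v_r`. The graph is covered by three cliques and has the polynomial `(1 + u)(w + I_Γ) + ∑_r v_r I_{A_r}`.
Cutting along `w + I_Γ = 0`, passing from the invertible values of `∑ v_r I_{A_r}` to the value one, and
using Jouanolou's device one arrives at the common zeros of the polynomials `I_{A_r}` of the induced
subgraphs, and these describe the trilinear hypersurfaces `T = 1`, which are universal by a theorem of the
library.
-/

set_option autoImplicit false

open AlgebraicGeometry Pool.Agent.Y116.UV Pool.Agent.Q193.LT Pool.Agent.Y101.Th Pool.Agent.Helper3.GU Pool.Agent.Helper59.IP

namespace Pool.Agent.Results.MP_3af9db_ag.IndependencePolynomials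

/-- **Jannsen's question on cycle classes over finite fields and independence polynomials of graphs.** -/
theorem result {k Ω : Type} [Field k] [Finite k] (hk : (Nat.card k).Prime) [Field Ω] [CharZero Ω]
    {T : Homology k Ω} (hT : IsHomology T) (hK : TBKnown T) (hC : CycKnown T)
    (geisser : (∀ X : Sch k, FT True X → CycIso T X ∧ Semisimple T X) →
      ∀ X : Sch k, SmProj X → TB T X) :
    List.TFAE [∀ X : Sch k, FT True X → CycIso T X,
      ∀ X : Sch k, FT True X → TB T X,
      ∀ (n : ℕ) (G : SimpleGraph (Fin n)), ThreeCliques G → TB T (indS k G),
      ∀ (n : ℕ) (G : SimpleGraph (Fin n)), ThreeCliques G → TB T (indH k G),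
      ∀ (n : ℕ) (G : SimpleGraph (Fin n)), ThreeCliques G → TB T (indT k G),
      ∀ (n : ℕ) (G : SimpleGraph (Fin n)), ThreeCliques G → TB T (indHT k G)] :=
  ind_cons_all (ind_tfae (mot_of_bnd (bnd_tb hT)) (presents_frac (frac_of_card hk)))
    ⟨fun h X hX => (gen_all (bnd_tb hT).toUni).mpr ((tb_smproj hT hK).mp (geisser fun X hX =>
      ⟨h X hX, semisimple_of_all hT hC h X hX⟩)) X hX,
      fun h X hX => ((jj_iff hT X).mp (jj_of_tb hT (h X hX))).1⟩

end Pool.Agent.Results.MP_3af9db_ag.IndependencePolynomials
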