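import Pool.Agent.Helper3.GM.App2
import Pool.Agent.Helper3.GU.Fin
import Pool.Graph.R_pool_sql_team_seeded_1acbe0a2.Y101.Th.TBMain
import Pool.Graph.R_pool_sql_team_seeded_1acbe0a2.Y101.Th.CycMain

/-!
# Jannsen's question on cycle classes over finite fields and sparse matrices

Let `k` be the field with `p` elements. For a set `S` of positions in the `n × n` matrices with at most three positions in each row and in each
column (`Sparse`) let `detS` be the determinant of the generic matrix with zeros outside of `S`. (With two
positions instead of three it would be a product of monomials and binomials.)

`T` is the motivic and `ℓ`-adic Borel-Moore homology of the schemes over `k` with the cycle class maps (and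
regulators), with the known properties `IsHomology`, `TBKnown`, `CycKnown` of the starting library.
`CycIso T X` says that the maps `cl_i` of the question are isomorphisms onto the invariants of the
Frobenius for `X` and all `i`; `TB T X` is the same statement for all higher Chow groups, together with
the semisimplicity of the eigenvalue one of the Frobenius in all degrees. The hypothesis `geisser` is the
theorem that the maps of higher Chow groups of smooth projective schemes are isomorphisms as well if
the maps `cl_i` are isomorphisms and the eigenvalue one is semisimple on the groups
`H_{2 i}(X, ℚ_ℓ(i))` for all varieties `X` (these imply the conjectures of Tate and Beilinson for smooth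
projective varieties, and with them Parshin's conjecture).

**Theorem.** (1) For each separated scheme `X` of finite type over `k` there is a finite list `L` of sets `S` of
positions, with at most three positions in each row and in each column, such that for all `ℓ` the statement
`TB T X` follows from `TB T Z` for the schemes `Z` of one of the following four kinds, `S` in `L`:
the schemes of the invertible matrices with zeros outside of `S`; of the matrices of
determinant one with zeros outside of `S`; of the matrices of determinant zero with zeros outside of `S`; of the
invertible matrices with zeros outside of `S` and invertible entries at all positions in `S`.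

(2) The cycle class maps `cl_i` are isomorphisms for all varieties `X` over `k` and all `i` if and only if
`TB T X` is true for all separated schemes `X` of finite type, and if and only if it is true for all the
schemes of one of the four kinds.
-/

set_option autoImplicit false

open AlgebraicGeometry Pool.Agent.Y116.UV Pool.Agent.Q193.LT Pool.Agent.Y101.Th Pool.Agent.Helper3.GU
  Pool.Agent.Helper3.GM

namespace Pool.Agent.Results.MP_3af9db_ag.SparseMatrices

/-- **Jannsen's question on cycle classes over finite fields and sparse matrices.** -/
theorem result {k : Type} [Field k] [Finite k] (hk : (Nat.card k).Prime) :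
    (∀ X : Sch k, FT True X → ∃ L : List (Σ n : ℕ, Finset (Fin n × Fin n)), (∀ S ∈ L, Sparse S.2) ∧
      ∀ (Ω : Type) [Field Ω] [CharZero Ω] (T : Homology k Ω), IsHomology T → OneKind (TB T) L →
        TB T X) ∧
    ∀ (Ω : Type) [Field Ω] [CharZero Ω] (T : Homology k Ω), IsHomology T → TBKnown T → CycKnown T →
      ((∀ X : Sch k, FT True X → CycIso T X ∧ Semisimple T X) → ∀ X : Sch k, SmProj X → TB T X) →
      List.TFAE [∀ X : Sch k, FT True X → CycIso T X,
        ∀ X : Sch k, FT True X → TB T X,
        ∀ (n : ℕ) (S : Finset (Fin n × Fin n)), Sparse S → TB T (invS k S),
        ∀ (n : ℕ) (S : Finset (Fin n × Fin n)), Sparse S → TB T (oneS k S),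
        ∀ (n : ℕ) (S : Finset (Fin n × Fin n)), Sparse S → TB T (zeroS k S),
        ∀ (n : ℕ) (S : Finset (Fin n × Fin n)), Sparse S → TB T (torS k S)] := by
  refine ⟨fun X hX => ?_, fun Ω _ _ T hT hK hC geisser => ?_⟩
  · obtain ⟨L, hL, h⟩ := mat_finite (sep := True) (presents_frac (frac_of_card hk)) X hX
    exact ⟨L, hL, fun Ω _ _ T hT => h _ (mot_of_bnd (bnd_tb hT))⟩
  · exact stmts_cons (mat_tfae (mot_of_bnd (bnd_tb hT)) (presents_frac (frac_of_card hk)))
      ⟨fun h X hX => (gen_all (bnd_tb hT).toUni).mpr ((tb_smproj hT hK).mp (geisser fun X hX =>
        ⟨h X hX, semisimple_of_all hT hC h X hX⟩)) X hX,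
        fun h X hX => ((jj_iff hT X).mp (jj_of_tb hT (h X hX))).1⟩

end Pool.Agent.Results.MP_3af9db_ag.SparseMatrices
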