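import Pool.Agent.Helper10.CY.Main
import Pool.Agent.Helper3.GU.Fin

/-!
# Surjectivity of cycle class maps over finite fields and smooth moduli spaces of planar configurations

Let `k` be a finite prime field with `p` elements, and `ℓ ≠ p`. We fix the dimension `i` of the cycles.
For a separated scheme `X` of finite type over `k` let `CH X = CH_i(X)` be the ordinary Chow group,
`H X = H_{2i}(X̄, ℚ_ℓ(i))`, and `cl_i` the cycle class map of the question. `Surj D X` says that `cl_i` is
surjective onto the invariants of the Frobenius, and `SS D X` is the condition `SS_i(X)` of the problem: the
eigenvalue one of the Frobenius on `H X` is semisimple. The properties which are used (`IsCycle`) are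
classical: the groups `H X` are finite-dimensional, the localisation sequences (the exactness of
`H Z → H X → H U`, and the surjectivity of `CH_i(X) → CH_i(U)`), and the classes of the components of the
schemes of dimension at most `i`. Higher Chow groups are not used. The hypothesis `Alterations` is the
theorem of de Jong: if `Surj` and `SS` are true for the smooth projective schemes of dimension at most `d`
then they are true for all separated schemes of finite type of dimension at most `d`; it is used only for
the statement on smooth projective schemes.

A matroid `M` of rank three on the set `Fin 4 ⊕ Fin m` is **framed** if any three of the four elements of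
`Fin 4` form a base; it is **simple** if any two elements are independent. Let `modS k M` be the moduli
space over `k` of the configurations of `m + 4` different points in the projective plane in which exactly
the triples prescribed by `M` are collinear, modulo projective transformations: the four points of `Fin 4`
are the points of `e_1, e_2, e_3, e_1 + e_2 + e_3`, and the other ones have normalised coordinates.

**Theorem.** Let `d` be a natural number. The following statements are equivalent.

* The surjectivity half of the question for `i`-cycles in dimension at most `d`: `cl_i` is surjective for all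
  separated schemes `X` of finite type over `k` of dimension at most `d`.
* `cl_i` is surjective and `SS_i(X)` is true for all these `X`.
* `cl_i` is surjective and `SS_i(Y)` is true for all smooth projective schemes `Y` over `k` of dimension at
  most `d`.
* `cl_i` is surjective for the moduli spaces `X = modS k M` which are integral, smooth and of dimension at
  most `d`, for all simple framed matroids `M` of rank three. (For smooth `X` of dimension `e` it is the map
  from `CH^{e-i}(X)` to the invariants in `H^{2(e-i)}(X̄, ℚ_ℓ(e-i))`.)

The same is true without bounds for the dimensions. Moreover for each `X` there is a finite list `L` of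
simple matroids of rank three, whose moduli spaces are integral, smooth, and of dimension at most `dim X`,
such that for all `i`, `ℓ` (and all theories): if `cl_i` is surjective and `SS_i` is true for the moduli
spaces `modS k M`, `M` in `L`, then the same is true for `X`.

So for these moduli spaces nothing has to be known on semisimplicity, on injectivity, or on higher Chow
groups. The earlier reductions (bilinear systems, cubic hypersurfaces, graph hypersurfaces) need the
semisimplicity and the bijectivity for the schemes in question, and mostly all higher Chow groups and
schemes of larger dimension.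

Proof. Let `Full D X` be the statement that the generalised eigenspace of the Frobenius in `H X` is
spanned by classes of cycles; it is equivalent to `Surj` and `SS`. As generalised eigenspaces are exact,
`Full` for `Z` and `U` implies `Full` for `X`. Let `X` be integral and of dimension larger than `i`. There
are finitely many cycles whose classes span the space of all classes of cycles. On the complement `V` of
their supports all classes of cycles are zero. Now `V` contains a moduli space `modS k M` as a nonempty open
subscheme (`Pool.Agent.Helper13.RM.exists_open_mod`). Its classes of cycles are zero too, so the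
surjectivity of `cl_i` for `modS k M` implies that the eigenvalue one does not occur, and `Full` is true for
`modS k M`. By noetherian induction `Full` is true for all schemes.
-/

set_option autoImplicit false

open CategoryTheory AlgebraicGeometry Pool.Agent.Y116.UV Pool.Agent.Z125.UN Pool.Agent.Q193.LT
  Pool.Agent.Q282.UK Pool.Agent.Helper3.GU Pool.Agent.Helper13.RM Pool.Agent.Helper10.CY

universe u v

namespace Pool.Agent.Results.MP_3af9db_ag.SurjectiveOnModuli

/-- Smooth projective schemes generate, in each dimension (de Jong): if `cl_i` is surjective and the
eigenvalue one is semisimple for all smooth projective schemes of dimension at most `d`, then this is so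
for all separated schemes of finite type of dimension at most `d`. -/
def Alterations {k Ω : Type} [Field k] [Field Ω] (D : CycleData.{u, v} k Ω) : Prop :=
  ∀ d : ℕ, (∀ Y : Sch k, SmoothProj Y → DimAt Y d → Surj D Y ∧ SS D Y) →
    ∀ X : Sch k, FT True X → DimAt X d → Surj D X ∧ SS D X

/-- **Surjectivity of cycle class maps and smooth moduli spaces of planar configurations.** See the
explanations above. -/
theorem result {k : Type} [Field k] [Finite k] (hk : (Nat.card k).Prime) :
    (∀ X : Sch k, FT True X →
      ∃ L : List Mat, (∀ M ∈ L, SmoothMod k (topologicalKrullDim X.left) M.2) ∧
        ∀ (Ω : Type) [Field Ω] (D : CycleData.{u, v} k Ω) (i : ℕ), IsCycle D i →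
          (∀ M ∈ L, Surj D (modS k M.2) ∧ SS D (modS k M.2)) → Surj D X ∧ SS D X) ∧
    ∀ {Ω : Type} [Field Ω] (D : CycleData.{u, v} k Ω) (i : ℕ), IsCycle D i → Alterations D →
      (∀ d : ℕ, List.TFAE [∀ X : Sch k, FT True X → DimAt X d → Surj D X,
        ∀ X : Sch k, FT True X → DimAt X d → Surj D X ∧ SS D X,
        ∀ Y : Sch k, SmoothProj Y → DimAt Y d → Surj D Y ∧ SS D Y,
        ∀ (m : ℕ) (M : Matroid (Fin 4 ⊕ Fin m)), SmoothMod k d M → Surj D (modS k M)]) ∧
      List.TFAE [∀ X : Sch k, FT True X → Surj D X,
        ∀ X : Sch k, FT True X → Surj D X ∧ SS D X,
        ∀ Y : Sch k, SmoothProj Y → Surj D Y ∧ SS D Y,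
        ∀ (d m : ℕ) (M : Matroid (Fin 4 ⊕ Fin m)), SmoothMod k d M → Surj D (modS k M)] := by
  have hR : Presents ({0, 1} : Set k) := presents_frac (frac_of_card hk)
  refine ⟨fun X hX => ?_, fun {Ω} _ D i hD alt => ⟨fun d => ?_, ?_⟩⟩
  · obtain ⟨L, hL, h⟩ := config_list hR X hX
    exact ⟨L, hL, fun Ω _ D i hD hM => (full_iff hD X).1
      (h _ (cut_full hD) fun M hM' => (full_iff hD _).2 (hM M hM'))⟩
  · tfae_have 1 → 4 := fun h m M hM => h _ (ft_modT _) hM.dim
    tfae_have 4 → 2 := fun h X hX hd => (full_iff hD X).1 (full_of_moduli hR hD d h X hX hd)
    tfae_have 2 → 1 := fun h X hX hd => (h X hX hd).1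
    tfae_have 2 → 3 := fun h Y hY hd => h Y hY.ft hd
    tfae_have 3 → 2 := alt d
    tfae_finish
  · tfae_have 1 → 4 := fun h d m M hM => h _ (ft_modT _)
    tfae_have 4 → 2 := fun h X hX => (full_iff hD X).1 (full_of_moduli hR hD ⊤
      (fun m M hM => h (3 * m) m M ⟨hM.framed, hM.simple, hM.domain, hM.smooth, dim_modT _⟩) X hX
      le_top)
    tfae_have 2 → 1 := fun h X hX => (h X hX).1
    tfae_have 2 → 3 := fun h Y hY => h Y hY.ft
    tfae_have 3 → 4 := fun h d m M hM => (alt d (fun Y hY _ => h Y hY) _ (ft_modT _) hM.dim).1
    tfae_finish

end Pool.Agent.Results.MP_3af9db_ag.SurjectiveOnModuli
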